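import Pool.Agent.T9h40.GC.Spec2

/-!
# (G2) Superelliptic curves
-/

set_option autoImplicit false

open Polynomial

namespace Pool.Agent.T9h73.GC

open Pool.Agent.T9h40.GP (HypP)

theorem lt_of {p : ℂ[X]} {M : ℕ} (hM : 1 ≤ M) (h1 : p.natDegree ≤ M) (h2 : p.coeff M = 0) :
    p.natDegree < M := by
  by_contra h
  have h3 : p.natDegree = M := by omega
  have h4 : p.leadingCoeff = 0 := by rw [leadingCoeff, h3, h2]
  rw [leadingCoeff_eq_zero] at h4
  rw [h4, natDegree_zero] at h3
  omega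

theorem exB (n e : ℕ) (hn : 2 ≤ n) (he : 1 ≤ e) (D : ℂ[X]) :
    ∀ N, N ≤ e → (∃ B : ℂ[X], B.Monic ∧ B.natDegree = e ∧
      (B ^ n - D).natDegree < N + e * (n - 1)) →
    ∃ B : ℂ[X], B.Monic ∧ B.natDegree = e ∧ (B ^ n - D).natDegree < e * (n - 1) := by
  intro N
  induction N with
  | zero =>
    intro _ h
    simpa using h
  | succ N ih =>
    rintro hN ⟨B, hB, hBe, hE⟩
    apply ih (by omega)
    have hn0 : (n : ℂ) ≠ 0 := by
      have : n ≠ 0 := by omega
      exact_mod_cast this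
    set M := N + e * (n - 1) with hM
    have hM1 : 1 ≤ M := by
      have : 1 ≤ e * (n - 1) := Nat.one_le_iff_ne_zero.2 (Nat.mul_ne_zero (by omega) (by omega))
      omega
    set c := (B ^ n - D).coeff M with hc
    set Q : ℂ[X] := C (c / n) * X ^ N with hQ
    have hQd : Q.natDegree ≤ N := natDegree_C_mul_X_pow_le _ _
    have hQlt : Q.degree < B.degree := by
      have h1 : Q.degree ≤ ((N : ℕ) : WithBot ℕ) :=
        degree_le_natDegree.trans (by exact_mod_cast hQd)
      refine lt_of_le_of_lt h1 ?_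
      rw [degree_eq_natDegree hB.ne_zero, hBe]
      exact_mod_cast (by omega : N < e)
    set B' := B - Q with hB'
    have hB'm : B'.Monic := hB.sub_of_left hQlt
    have hB'e : B'.natDegree = e := by
      rw [← hBe]
      exact natDegree_eq_of_degree_eq (degree_sub_eq_left_of_degree_lt hQlt)
    refine ⟨B', hB'm, hB'e, ?_⟩
    set G : ℂ[X] := ∑ i ∈ Finset.range n, B' ^ i * B ^ (n - 1 - i) with hG
    have hterm : ∀ i ∈ Finset.range n, (B' ^ i * B ^ (n - 1 - i)).Monic ∧
        (B' ^ i * B ^ (n - 1 - i)).natDegree = e * (n - 1) := by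
      intro i hi
      have hi' := Finset.mem_range.1 hi
      refine ⟨(hB'm.pow i).mul (hB.pow _), ?_⟩
      rw [(hB'm.pow i).natDegree_mul (hB.pow _), hB'm.natDegree_pow, hB.natDegree_pow, hB'e, hBe,
        ← Nat.add_mul, mul_comm]
      congr 1
      omega
    have hGd : G.natDegree ≤ e * (n - 1) := by
      refine natDegree_sum_le_of_forall_le _ _ fun i hi => ?_
      rw [(hterm i hi).2]
    have hGc : G.coeff (e * (n - 1)) = n := by
      rw [hG, finsetSum_coeff]
      have : ∀ i ∈ Finset.range n, (B' ^ i * B ^ (n - 1 - i)).coeff (e * (n - 1)) = 1 := by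
        intro i hi
        have h1 := (hterm i hi).1.coeff_natDegree
        rwa [(hterm i hi).2] at h1
      rw [Finset.sum_congr rfl this]
      simp
    have hfac : B' ^ n - B ^ n = -(Q * G) := by
      have h1 := (Commute.all B' B).geom_sum₂_mul n
      rw [← h1, hB']
      ring
    have hE' : B' ^ n - D = (B ^ n - D) - Q * G := by
      have : B' ^ n - D = (B ^ n - D) + (B' ^ n - B ^ n) := by ring
      rw [this, hfac]
      ring
    have hQG : (Q * G).natDegree ≤ M := natDegree_mul_le.trans (Nat.add_le_add hQd hGd)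
    have hQGc : (Q * G).coeff M = c := by
      rw [hM, coeff_mul_add_eq_of_natDegree_le hQd hGd, hGc, hQ, coeff_C_mul_X_pow, if_pos rfl,
        div_mul_cancel₀ _ hn0]
    refine lt_of hM1 ?_ ?_
    · rw [hE']
      refine (natDegree_sub_le _ _).trans (max_le ?_ hQG)
      omega
    · rw [hE', coeff_sub, hQGc, sub_self]

theorem superEll : Pool.Agent.T9h40.GC.SuperEll := by
  intro n e hn he D hD hd hne
  have hn0 : n ≠ 0 := by omega
  have hen : 1 ≤ n * e := Nat.one_le_iff_ne_zero.2 (Nat.mul_ne_zero (by omega) (by omega))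
  have hsplit : e + e * (n - 1) = n * e := by
    obtain ⟨k, rfl⟩ := Nat.exists_eq_succ_of_ne_zero hn0
    simp [Nat.succ_mul]
    ring
  obtain ⟨B, hB, hBe, hE⟩ := exB n e hn he D e le_rfl ⟨X ^ e, monic_X_pow e, natDegree_X_pow e, by
    rw [hsplit]
    refine lt_of hen ?_ ?_
    · refine (natDegree_sub_le _ _).trans (max_le ?_ hd.le)
      rw [← pow_mul, natDegree_X_pow, mul_comm]
    · have h1 := hD.coeff_natDegree
      rw [hd] at h1
      rw [coeff_sub, h1, ← pow_mul, mul_comm e n, coeff_X_pow, if_pos rfl, sub_self]⟩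
  have hζ := Complex.isPrimitiveRoot_exp n hn0
  set ζ : ℂ := Complex.exp (2 * Real.pi * Complex.I / n) with hζd
  have hζn : ζ ^ n = 1 := hζ.pow_eq_one
  have hζ0 : ∀ l : ℕ, ζ ^ l ≠ 0 := fun l => pow_ne_zero _ (Complex.exp_ne_zero _)
  have hAn : ∀ l : Fin n, (C (ζ ^ (l : ℕ)) * B) ^ n = B ^ n := by
    intro l
    rw [mul_pow, ← C_pow, ← pow_mul, mul_comm (l : ℕ) n, pow_mul, hζn, one_pow, C_1, one_mul]
  have hev : ∀ l : Fin n, (X ^ n - C D : Polynomial ℂ[X]).eval (C (ζ ^ (l : ℕ)) * B) = B ^ n - D := by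
    intro l
    rw [eval_sub, eval_pow, eval_X, eval_C, hAn l]
  refine ⟨fun l => C (ζ ^ (l : ℕ)) * B, ?_⟩
  refine ⟨hn, he, monic_X_pow_sub_C D hn0, natDegree_X_pow_sub_C, ?_, ?_, ?_, ?_, ?_⟩
  · intro i hi
    rw [coeff_sub, coeff_X_pow, if_neg (by omega), zero_sub, natDegree_neg, coeff_C]
    split_ifs with h
    · subst h
      rw [hd, Nat.sub_zero, mul_comm]
    · rw [natDegree_zero]
      exact Nat.zero_le _
  · intro l
    show (C (ζ ^ (l : ℕ)) * B).natDegree = e
    rw [natDegree_C_mul (hζ0 l), hBe]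
  · intro l l' hl
    have h1 : (C (ζ ^ (l : ℕ)) * B).leadingCoeff = (C (ζ ^ (l' : ℕ)) * B).leadingCoeff := hl
    rw [leadingCoeff_mul, leadingCoeff_mul, leadingCoeff_C, leadingCoeff_C, hB.leadingCoeff,
      mul_one, mul_one] at h1
    exact Fin.ext (hζ.pow_inj l.2 l'.2 h1)
  · intro l
    show (X ^ n - C D : Polynomial ℂ[X]).eval (C (ζ ^ (l : ℕ)) * B) ≠ 0
    rw [hev l]
    exact sub_ne_zero.2 (hne B)
  · intro l
    show ((X ^ n - C D : Polynomial ℂ[X]).eval (C (ζ ^ (l : ℕ)) * B)).natDegree < e * (n - 1)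
    rw [hev l]
    exact hE

end Pool.Agent.T9h73.GC
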